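import Pool.Agent.helper54.GR3.Spec

/-!
# Project g3: (MP_af9036_an, MP_70a088_an), module COR3 (compare helper23/GR/CORE.lean)
-/

set_option autoImplicit false

open Complex Metric Set Filter Topology MeasureTheory
open MPS (om)
open PPS (pre TT fd)
open XPS (Df er dens tau)
open Pool.Agent.helper16.Multibrot

noncomputable section

namespace GR

theorem COR3_om (n : ℕ) : ‖om n‖ = 1 := by
  unfold MPS.om
  rw [show (2 * (Real.pi : ℂ) * Complex.I / (n : ℂ)) = ((2 * Real.pi / n : ℝ) : ℂ) * Complex.I by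
    push_cast; ring]
  exact Complex.norm_exp_ofReal_mul_I _

/-- the area of an annulus -/
theorem COR3_area (r : ℝ) (hr : 0 < r) :
    ENNReal.ofReal (2 * r ^ 2) ≤ volume (ball (0 : ℂ) r \ closedBall (0 : ℂ) (r / 2)) := by
  have hsub : closedBall (0 : ℂ) (r / 2) ⊆ ball (0 : ℂ) r := closedBall_subset_ball (by linarith)
  rw [measure_sdiff hsub measurableSet_closedBall.nullMeasurableSet measure_closedBall_lt_top.ne]
  rw [Complex.volume_ball, Complex.volume_closedBall]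
  have h1 : (NNReal.pi : ENNReal) = ENNReal.ofReal Real.pi := by
    rw [← NNReal.coe_real_pi, ENNReal.ofReal_coe_nnreal]
  rw [h1, ← ENNReal.ofReal_pow hr.le, ← ENNReal.ofReal_pow (by linarith : (0 : ℝ) ≤ r / 2),
    ← ENNReal.ofReal_mul (by positivity), ← ENNReal.ofReal_mul (by positivity),
    ← ENNReal.ofReal_sub _ (by positivity)]
  apply ENNReal.ofReal_le_ofReal
  have := Real.pi_gt_three
  nlinarith [sq_nonneg r, pow_pos hr 2]

/-- rotations preserve the measure on the balls around `0`. -/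
theorem COR3_mp (a : ℂ) (ha : ‖a‖ = 1) (r : ℝ) :
    MeasurePreserving (fun w : ℂ => a * w) (volume.restrict (ball (0 : ℂ) r))
      (volume.restrict (ball (0 : ℂ) r)) ∧ MeasurableEmbedding (fun w : ℂ => a * w) := by
  set A : Circle := ⟨a, mem_sphere_zero_iff_norm.2 ha⟩ with hA
  have e : (fun w : ℂ => a * w) = rotation A := by
    funext w
    rw [rotation_apply]
  have hmp : MeasurePreserving (fun w : ℂ => a * w) volume volume := by
    rw [e]
    exact (rotation A).measurePreserving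
  have hpre : (fun w : ℂ => a * w) ⁻¹' (ball (0 : ℂ) r) = ball (0 : ℂ) r := by
    ext w
    simp [ha]
  constructor
  · have := hmp.restrict_preimage (s := ball (0 : ℂ) r) measurableSet_ball
    rwa [hpre] at this
  · rw [e]
    exact (rotation A).toHomeomorph.measurableEmbedding

/-- the pointwise lower bound on the annulus, first case -/
theorem COR3_point (hPH3 : PH3_stmt) (n : ℕ) (hn : 2 ≤ n) (R ρ : ℝ) (hR : 0 < R)
    (hρ1 : ρ ≤ 1) (κ θ : ℂ) (d : ℤ) (hd : ¬ ((n : ℤ) ∣ d + 2)) (T h : ℂ → ℂ)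
    (hT : ∀ u ∈ ball (0 : ℂ) 1, T ((R : ℂ) * u) = θ * h u)
    (hh : ∀ u : ℂ, ρ / 2 < ‖u‖ → ‖u‖ < ρ → ‖h u - κ * u ^ d‖ ≤ 1 / 4 * ‖κ * u ^ d‖ ∧
      1 ≤ ‖κ * u ^ d‖) (hρ0 : 0 < ρ)
    (w : ℂ) (hw1 : ρ / 2 * R < ‖w‖) (hw2 : ‖w‖ < ρ * R) :
    ‖θ‖ * ((n : ℝ) / 2) ≤ ∑ k ∈ Finset.range n, ‖T (om n ^ k * w)‖ -
      ‖∑ k ∈ Finset.range n, om n ^ (2 * k) * T (om n ^ k * w)‖ := by
  have hR' : (R : ℂ) ≠ 0 := by exact_mod_cast hR.ne'
  set u : ℂ := w / R with hu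
  have hwu : w = (R : ℂ) * u := by rw [hu]; field_simp
  have hnu : ‖u‖ = ‖w‖ / R := by
    rw [hu, norm_div, Complex.norm_real, Real.norm_of_nonneg hR.le]
  have hu1 : ρ / 2 < ‖u‖ := by rw [hnu, lt_div_iff₀ hR]; exact hw1
  have hu2 : ‖u‖ < ρ := by rw [hnu, div_lt_iff₀ hR]; exact hw2
  have hu0 : u ≠ 0 := by
    intro h0
    rw [h0, norm_zero] at hu1
    linarith
  have hnorm : ∀ k : ℕ, ‖om n ^ k * u‖ = ‖u‖ := by
    intro k
    rw [norm_mul, norm_pow, COR3_om, one_pow, one_mul]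
  have hzn : ∀ k : ℕ, ‖κ * (om n ^ k * u) ^ d‖ = ‖κ * u ^ d‖ := by
    intro k
    rw [norm_mul, norm_mul, norm_zpow, norm_zpow, hnorm]
  have hTk : ∀ k : ℕ, T (om n ^ k * w) = θ * h (om n ^ k * u) := by
    intro k
    rw [hwu, show om n ^ k * ((R : ℂ) * u) = (R : ℂ) * (om n ^ k * u) by ring]
    apply hT
    rw [mem_ball_zero_iff, hnorm]
    linarith
  have hpha := hPH3 n hn κ u (fun k => h (om n ^ k * u)) d hd hu0 (by
    intro k _
    have := (hh (om n ^ k * u) (by rw [hnorm]; exact hu1) (by rw [hnorm]; exact hu2)).1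
    rw [hzn] at this
    exact this)
  have h1 := (hh u hu1 hu2).2
  have e1 : ∑ k ∈ Finset.range n, ‖T (om n ^ k * w)‖ =
      ‖θ‖ * ∑ k ∈ Finset.range n, ‖h (om n ^ k * u)‖ := by
    rw [Finset.mul_sum]
    exact Finset.sum_congr rfl (fun k _ => by rw [hTk, norm_mul])
  have e2 : ‖∑ k ∈ Finset.range n, om n ^ (2 * k) * T (om n ^ k * w)‖ =
      ‖θ‖ * ‖∑ k ∈ Finset.range n, om n ^ (2 * k) * h (om n ^ k * u)‖ := by
    rw [← norm_mul, Finset.mul_sum]
    congr 1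
    exact Finset.sum_congr rfl (fun k _ => by rw [hTk]; ring)
  rw [e1, e2, ← mul_sub]
  apply mul_le_mul_of_nonneg_left _ (norm_nonneg _)
  refine le_trans ?_ hpha
  have : 0 ≤ (n : ℝ) / 2 := by positivity
  nlinarith

/-- the pointwise lower bound for a pair of cells, second case -/
theorem COR3_pair (hPAI : PAI_stmt) (R ρ t : ℝ) (hR : 0 < R) (ht : 0 < t)
    (hρ1 : ρ ≤ 1) (κ κ' θ θ' : ℂ) (hθ : ‖θ‖ = t) (hθ' : ‖θ'‖ = t) (T T' h h' : ℂ → ℂ)
    (hT : ∀ u ∈ ball (0 : ℂ) 1, T ((R : ℂ) * u) = θ * h u)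
    (hT' : ∀ u ∈ ball (0 : ℂ) 1, T' ((R : ℂ) * u) = θ' * h' u)
    (hh : ∀ u : ℂ, ρ / 2 < ‖u‖ → ‖u‖ < ρ → ‖h u - κ * u ^ (1 : ℤ)‖ ≤ 1 / 16 * ‖κ * u ^ (1 : ℤ)‖ ∧
      1 ≤ ‖κ * u ^ (1 : ℤ)‖)
    (hh' : ∀ u : ℂ, ρ / 2 < ‖u‖ → ‖u‖ < ρ → ‖h' u - κ'‖ ≤ 1 / 16 * ‖κ'‖ ∧ 1 ≤ ‖κ'‖)
    (w : ℂ) (hw1 : ρ / 2 * R < ‖w‖) (hw2 : ‖w‖ < ρ * R) :
    t / 8 ≤ (‖T w‖ + ‖T' w‖ - ‖T w + T' w‖) + (‖T (-1 * w)‖ + ‖T' (-1 * w)‖ - ‖T (-1 * w) + T' (-1 * w)‖) := by
  have hR' : (R : ℂ) ≠ 0 := by exact_mod_cast hR.ne'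
  set u : ℂ := w / R with hu
  have hwu : w = (R : ℂ) * u := by rw [hu]; field_simp
  have hwu' : -1 * w = (R : ℂ) * (-u) := by rw [hwu]; ring
  have hnu : ‖u‖ = ‖w‖ / R := by
    rw [hu, norm_div, Complex.norm_real, Real.norm_of_nonneg hR.le]
  have hu1 : ρ / 2 < ‖u‖ := by rw [hnu, lt_div_iff₀ hR]; exact hw1
  have hu2 : ‖u‖ < ρ := by rw [hnu, div_lt_iff₀ hR]; exact hw2
  have hub : u ∈ ball (0 : ℂ) 1 := by
    rw [mem_ball_zero_iff]
    linarith
  have hub' : -u ∈ ball (0 : ℂ) 1 := by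
    rw [mem_ball_zero_iff, norm_neg]
    linarith
  have htc : (t : ℂ) ≠ 0 := by exact_mod_cast ht.ne'
  have hθ1 : ‖θ / t‖ = 1 := by
    rw [norm_div, hθ, Complex.norm_real, Real.norm_of_nonneg ht.le, div_self ht.ne']
  have hθ1' : ‖θ' / t‖ = 1 := by
    rw [norm_div, hθ', Complex.norm_real, Real.norm_of_nonneg ht.le, div_self ht.ne']
  have h1 := hh u hu1 hu2
  have h2 := hh (-u) (by rw [norm_neg]; exact hu1) (by rw [norm_neg]; exact hu2)
  have h3 := hh' u hu1 hu2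
  have h4 := hh' (-u) (by rw [norm_neg]; exact hu1) (by rw [norm_neg]; exact hu2)
  simp only [zpow_one] at h1 h2
  have key := hPAI (θ / t * (κ * u)) (θ' / t * κ') (θ / t * h u) (θ / t * h (-u)) (θ' / t * h' u)
    (θ' / t * h' (-u)) (by rw [norm_mul, hθ1, one_mul]; exact h1.2)
    (by rw [norm_mul, hθ1', one_mul]; exact h3.2)
    (by rw [← mul_sub, norm_mul, hθ1, one_mul, norm_mul (θ / t), hθ1, one_mul]; exact h1.1)
    (by
      rw [← mul_add, norm_mul, hθ1, one_mul, norm_mul (θ / t), hθ1, one_mul]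
      have e : h (-u) + κ * u = h (-u) - κ * -u := by ring
      have e' : ‖κ * u‖ = ‖κ * -u‖ := by rw [mul_neg, norm_neg]
      rw [e, e']
      exact h2.1)
    (by rw [← mul_sub, norm_mul, hθ1', one_mul, norm_mul (θ' / t), hθ1', one_mul]; exact h3.1)
    (by rw [← mul_sub, norm_mul, hθ1', one_mul, norm_mul (θ' / t), hθ1', one_mul]; exact h4.1)
  have e1 : T w = t * (θ / t * h u) := by
    rw [hwu, hT u hub]
    field_simp
  have e2 : T (-1 * w) = t * (θ / t * h (-u)) := by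
    rw [hwu', hT (-u) hub']
    field_simp
  have e3 : T' w = t * (θ' / t * h' u) := by
    rw [hwu, hT' u hub]
    field_simp
  have e4 : T' (-1 * w) = t * (θ' / t * h' (-u)) := by
    rw [hwu', hT' (-u) hub']
    field_simp
  have hnt : ∀ z : ℂ, ‖(t : ℂ) * z‖ = t * ‖z‖ := by
    intro z
    rw [norm_mul, Complex.norm_real, Real.norm_of_nonneg ht.le]
  rw [e1, e2, e3, e4, ← mul_add, ← mul_add, hnt, hnt, hnt, hnt, hnt, hnt]
  nlinarith

theorem COR3 (hKO1 : V3.KO1_stmt) (hKO3 : V3.KO3_stmt) (hNAT : NAT_stmt) (hMSB : MSB_stmt)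
    (hERI : ERI_stmt) (hENG : ENG_stmt) (hTOW : TOW_stmt) (hCEL : CEL_stmt) (hMD3 : MD3_stmt)
    (hGUN : GUN_stmt) (hSCA : SCA_stmt) (hSYM : SYM_stmt) (hLOC3 : LOC3_stmt) (hLCK : LCK_stmt)
    (hPH3 : PH3_stmt) (hPAI : PAI_stmt) (hCHP : CHP_stmt) : COR3_stmt := by
  obtain ⟨C, hC1, hC⟩ := hKO1
  have hKQ : KQ C := ⟨hC1, hC⟩
  obtain ⟨D, hD1, hD⟩ := hKO3 (1 / 2) (by norm_num) (by norm_num)
  have hKD : KD D := by
    refine ⟨hD1, ?_⟩
    intro G a r hr hdiff hinj x hx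
    refine ((hD G a r hr hdiff hinj).2 x ?_).2.2.2
    rw [show (1 - 1 / 2) * r = r / 2 by ring]
    exact hx
  have hC0 : 0 < C := by linarith
  have hΓ1 : 1 ≤ 16 * C ^ 2 := by nlinarith
  obtain ⟨ρ₁', Λ₁, hρ₁', hΛ₁, hlck⟩ := hLCK (16 * C ^ 2) 2000 (32 * C ^ 2 * D) (1 / 16)
    hΓ1 (by norm_num) (by positivity) (by norm_num)
  obtain ⟨X₀, c₀, hX₀, hc₀, hloc⟩ := hLOC3 (16 * C ^ 2) 2000 (32 * C ^ 2 * D)
    (min (1 / (8 * C)) ρ₁') (1 / 16) Λ₁
    hΓ1 (by norm_num) (by positivity) (lt_min (by positivity) hρ₁') (by norm_num) hΛ₁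
  obtain ⟨CE, hCE, heri⟩ := hERI
  refine ⟨(16 * C + 2 * C * X₀ + 2) + 768 * C ^ 2 * CE / c₀ ^ 2, ?_, ?_⟩
  · have : 0 ≤ 768 * C ^ 2 * CE / c₀ ^ 2 := by positivity
    nlinarith
  intro n hn c p q κ hret hκ hS
  have hn2 : 2 ≤ n := by omega
  obtain ⟨-, -, -, -, -, -, -, -, -, -, hnat⟩ := hNAT n c hn2
  obtain ⟨hR0, hR2, hX1, hRX, hA0, hxcp, hxc⟩ := hnat p q hret
  have hlog : 0 ≤ Real.log (X n c p q) := Real.log_nonneg hX1.le
  have hfac : 1 ≤ κ * (1 + Real.log (X n c p q)) := by nlinarith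
  have hKpos : 0 ≤ 768 * C ^ 2 * CE / c₀ ^ 2 := by positivity
  by_cases hsmall : X n c p q ≤ 16 * C + 2 * C * X₀ + 2
  · have h1 : X n c p q ≤ (16 * C + 2 * C * X₀ + 2) + 768 * C ^ 2 * CE / c₀ ^ 2 := by linarith
    have h2 : 0 ≤ (16 * C + 2 * C * X₀ + 2) + 768 * C ^ 2 * CE / c₀ ^ 2 := by positivity
    calc X n c p q ≤ ((16 * C + 2 * C * X₀ + 2) + 768 * C ^ 2 * CE / c₀ ^ 2) * 1 := by linarith
      _ ≤ ((16 * C + 2 * C * X₀ + 2) + 768 * C ^ 2 * CE / c₀ ^ 2) *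
          (κ * (1 + Real.log (X n c p q))) := mul_le_mul_of_nonneg_left hfac h2
      _ = _ := by ring
  rw [not_le] at hsmall
  have hCX : 0 < C * X₀ := by positivity
  have hX16 : 16 * C ≤ X n c p q := by linarith
  have hX2 : 2 ≤ X n c p q := by linarith
  have hX2C : 2 * C * X₀ ≤ X n c p q := by linarith
  have hXX₀ : X₀ ≤ X n c p q := by nlinarith
  have hXpos : 0 < X n c p q := by linarith
  obtain ⟨G, hG⟩ := hTOW n c p q hret
  have hp1 : 1 ≤ p := by have := hret.q1; have := hret.qp; omega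
  obtain ⟨-, -, hlam⟩ := hCEL C n c p q G hKQ hret hG hX16
  obtain ⟨i, hi, k, hk, a, b, P, μ, l, hl1, hlP, hP2, hμ, hab, hab'⟩ :=
    hMD3 C n c p q G hKQ hret hG hX16
  obtain ⟨u₀, γ, hu₀, hγ, hg⟩ := hGUN C D n c p q G i hKQ hKD hret hG hX16 hi
  obtain ⟨u₁, γ₁, hu₁, hγ₁, hg₁⟩ := hGUN C D n c p q G k hKQ hKD hret hG hX16 hk
  obtain ⟨θ, hθ, hσ0, hsca⟩ := hSCA C n c p q G i hKQ hret hG hi
  obtain ⟨θ', hθ', -, hsca'⟩ := hSCA C n c p q G k hKQ hret hG hk
  have hlam1 : ∀ j, ‖xc n c p q j - 1‖ ≤ 1 / X₀ := by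
    intro j
    refine (hxc j).trans (hlam.trans ?_)
    rw [div_le_div_iff₀ hXpos (by linarith)]
    linarith
  have hxc2 : ‖xc n c p q k‖ ≤ 2 := by
    have h1 := hlam1 k
    have h2 : 1 / X₀ ≤ 1 := by
      rw [div_le_one (by linarith)]
      exact hX₀
    have h3 : ‖xc n c p q k‖ ≤ ‖xc n c p q k - 1‖ + ‖(1 : ℂ)‖ := by
      have := norm_add_le (xc n c p q k - 1) 1
      rwa [sub_add_cancel] at this
    rw [norm_one] at h3
    linarith
  have hXinv : 1 / X n c p q ≤ 1 / X₀ := one_div_le_one_div_of_le (by linarith) hXX₀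
  have hu₀' : ‖u₀‖ ≤ 1 / X₀ := by
    rw [hu₀]
    exact hXinv
  obtain ⟨ρ, κ', d, hρc, hρ1', hρΛ, hd, hann⟩ := hloc (gg C n c p q i G) (Bh C n c p q i) u₀ γ
    (xc n c p q i) a b hγ hu₀' (hlam1 i) hg hab
  have hρ1 : ρ ≤ 1 / (8 * C) := hρ1'.trans (min_le_left _ _)
  have hρ2 : ρ ≤ ρ₁' := hρ1'.trans (min_le_right _ _)
  have hρ0 : 0 < ρ := by linarith
  -- the energy
  obtain ⟨hBm, hBi⟩ := hMSB n c p q
  have hZp : 0 < ‖Z n c p‖ := norm_pos_iff.2 (hret.ne0 p hp1 le_rfl)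
  have hAp : 0 < ‖A n c p‖ := norm_pos_iff.2 (hA0 p hp1 (by omega))
  set ε : ℝ := CE * κ * (‖Z n c p‖ / ‖A n c p‖) * (1 + Real.log (X n c p q)) with hε
  have hκ0 : 0 < κ := by linarith
  have hε0 : 0 ≤ ε := by rw [hε]; positivity
  obtain ⟨-, hDm, hem, hEg⟩ := hENG n c (B n c p q) ε hn2 hret.hc hBm hBi hε0
    (heri n c p q κ hret hX2 hκ hS)
  have hmi : p - i < p := by have := Finset.mem_Icc.1 hi; omega
  have hmk : p - k < p := by have := Finset.mem_Icc.1 hk; omega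
  -- restriction to the annulus
  set Rq : ℝ := R n c q with hRq
  have hρ11 : ρ ≤ 1 := by
    refine hρ1.trans ?_
    rw [div_le_one (by positivity)]
    linarith
  have hsub : ball (0 : ℂ) (ρ * Rq) \ closedBall (0 : ℂ) (ρ * Rq / 2) ⊆ ball 0 (Rq / (8 * C)) := by
    intro w hw
    refine ball_subset_ball ?_ hw.1
    have h1 : ρ * Rq ≤ 1 / (8 * C) * Rq := mul_le_mul_of_nonneg_right hρ1 hR0.le
    calc ρ * Rq ≤ 1 / (8 * C) * Rq := h1
      _ = Rq / (8 * C) := by ring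
  have hmeas : MeasurableSet (ball (0 : ℂ) (ρ * Rq) \ closedBall (0 : ℂ) (ρ * Rq / 2)) :=
    measurableSet_ball.diff measurableSet_closedBall
  have hn0 : (0 : ℝ) < n := by exact_mod_cast (by omega : 0 < n)
  have h1 : sg C n c p q * ρ ^ 2 ≤ 48 * ε := by
    by_cases hdiv : (n : ℤ) ∣ d + 2
    · -- second case
      have hd1 : d = 1 ∧ Λ₁ ≤ ‖b‖ * ρ ^ 2 ∧ Λ₁ * ‖a‖ ≤ ‖b‖ * ρ := by
        rcases hd with h | h | h
        · exfalso
          rw [h] at hdiv
          have := Int.le_of_dvd (by norm_num) hdiv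
          omega
        · exfalso
          rw [h] at hdiv
          have := Int.le_of_dvd (by norm_num) hdiv
          omega
        · exact h
      obtain ⟨hd1, hb1, hb2⟩ := hd1
      rw [hd1] at hann
      obtain ⟨κ₂, hκ₂⟩ := hlck ρ (gg C n c p q k G) (Bh C n c p q k) u₁ γ₁ (xc n c p q k) a b P μ l
        hρ0 hρ2 hγ₁ (by
          rw [hu₁]
          refine le_trans ?_ hρΛ
          rw [div_eq_mul_one_div Λ₁ X₀]
          exact mul_le_mul_of_nonneg_left hXinv (by linarith)) hxc2 hl1 hlP hP2 hμ hb1 hb2 hg₁ hab'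
      have hchp := hCHP C n c p q G (3 * ε) hKQ hret hG hX16 hDm hem hEg (p - i) hmi (p - k) hmk
      set T : ℂ → ℂ := tau (B n c p q) G (p - i) with hTdef
      set T' : ℂ → ℂ := tau (B n c p q) G (p - k) with hTdef'
      set r : ℝ := Rq / (8 * C) with hr
      have hrR : r ≤ Rq := by
        rw [hr, div_le_iff₀ (by positivity)]
        nlinarith
      have hTm : ∀ m < p, AEMeasurable (tau (B n c p q) G m) (volume.restrict (ball (0 : ℂ) r)) := by
        intro m hm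
        have h1 : ContinuousOn (G m) (ball (0 : ℂ) r) :=
          ((hG.diff m hm).mono (ball_subset_ball hrR)).continuousOn
        have h2 : AEMeasurable (G m) (volume.restrict (ball (0 : ℂ) r)) :=
          h1.aemeasurable measurableSet_ball
        have h3 : AEMeasurable (fun w => B n c p q (G m w)) (volume.restrict (ball (0 : ℂ) r)) :=
          hBm.comp_aemeasurable h2
        have h4 : Measurable (deriv (G m)) := measurable_deriv _
        exact (h4.pow_const 2).aemeasurable.mul h3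
      have hm1 : AEMeasurable T (volume.restrict (ball (0 : ℂ) r)) := hTm _ hmi
      have hm2 : AEMeasurable T' (volume.restrict (ball (0 : ℂ) r)) := hTm _ hmk
      set v : ℂ → ENNReal := fun w => ENNReal.ofReal (‖T w‖ + ‖T' w‖ - ‖T w + T' w‖) with hv
      have hvm : AEMeasurable v (volume.restrict (ball (0 : ℂ) r)) := by
        apply AEMeasurable.ennreal_ofReal
        exact (hm1.norm.add hm2.norm).sub (hm1.add hm2).norm
      obtain ⟨hmp, hme⟩ := COR3_mp (-1) (by simp) r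
      have hv2 : ∫⁻ w in ball (0 : ℂ) r, v (-1 * w) = ∫⁻ w in ball (0 : ℂ) r, v w :=
        hmp.lintegral_comp_emb hme v
      have hpt : ∀ w ∈ ball (0 : ℂ) (ρ * Rq) \ closedBall (0 : ℂ) (ρ * Rq / 2),
          ENNReal.ofReal (sg C n c p q / Rq ^ 2 / 8) ≤ v w + v (-1 * w) := by
        intro w hw
        have hw1 : ρ / 2 * Rq < ‖w‖ := by
          have h1 := hw.2
          rw [mem_closedBall_zero_iff, not_le] at h1
          linarith
        have hw2 : ‖w‖ < ρ * Rq := mem_ball_zero_iff.1 hw.1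
        have h5 := COR3_pair hPAI Rq ρ (sg C n c p q / Rq ^ 2) hR0 (by positivity) hρ11 κ' κ₂ θ θ' hθ hθ'
          T T' (fun u => Bh C n c p q i (gg C n c p q i G u) * deriv (gg C n c p q i G) u ^ 2)
          (fun u => Bh C n c p q k (gg C n c p q k G u) * deriv (gg C n c p q k G) u ^ 2)
          hsca hsca' hann hκ₂ w hw1 hw2
        refine (ENNReal.ofReal_le_ofReal h5).trans ?_
        exact ENNReal.ofReal_add_le
      have hchain : ENNReal.ofReal (sg C n c p q / Rq ^ 2 / 8) * ENNReal.ofReal (2 * (ρ * Rq) ^ 2) ≤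
          4 * ENNReal.ofReal (3 * ε) := by
        calc ENNReal.ofReal (sg C n c p q / Rq ^ 2 / 8) * ENNReal.ofReal (2 * (ρ * Rq) ^ 2)
            ≤ ENNReal.ofReal (sg C n c p q / Rq ^ 2 / 8) *
              volume (ball (0 : ℂ) (ρ * Rq) \ closedBall (0 : ℂ) (ρ * Rq / 2)) :=
              mul_le_mul_right (COR3_area (ρ * Rq) (by positivity)) _
          _ = ∫⁻ w in ball (0 : ℂ) (ρ * Rq) \ closedBall (0 : ℂ) (ρ * Rq / 2),
              ENNReal.ofReal (sg C n c p q / Rq ^ 2 / 8) := by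
              rw [setLIntegral_const]
          _ ≤ ∫⁻ w in ball (0 : ℂ) (ρ * Rq) \ closedBall (0 : ℂ) (ρ * Rq / 2), (v w + v (-1 * w)) :=
              setLIntegral_mono' hmeas hpt
          _ ≤ ∫⁻ w in ball (0 : ℂ) r, (v w + v (-1 * w)) := lintegral_mono_set hsub
          _ = (∫⁻ w in ball (0 : ℂ) r, v w) + ∫⁻ w in ball (0 : ℂ) r, v (-1 * w) :=
              lintegral_add_left' hvm _
          _ = (∫⁻ w in ball (0 : ℂ) r, v w) + ∫⁻ w in ball (0 : ℂ) r, v w := by rw [hv2]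
          _ ≤ 2 * ENNReal.ofReal (3 * ε) + 2 * ENNReal.ofReal (3 * ε) := add_le_add hchp hchp
          _ = 4 * ENNReal.ofReal (3 * ε) := by ring
      rw [← ENNReal.ofReal_mul (by positivity), show (4 : ENNReal) = ENNReal.ofReal 4 by norm_num,
        ← ENNReal.ofReal_mul (by norm_num), ENNReal.ofReal_le_ofReal_iff (by positivity)] at hchain
      have e1 : sg C n c p q / Rq ^ 2 / 8 * (2 * (ρ * Rq) ^ 2) = sg C n c p q * ρ ^ 2 / 4 := by
        field_simp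
        ring
      rw [e1] at hchain
      linarith
    · -- first case
      have hsym := hSYM C n c p q G (3 * ε) hKQ hret hG hX16 hDm hem hEg (p - i) hmi
      have hann' : ∀ u : ℂ, ρ / 2 < ‖u‖ → ‖u‖ < ρ →
          ‖Bh C n c p q i (gg C n c p q i G u) * deriv (gg C n c p q i G) u ^ 2 - κ' * u ^ d‖ ≤
            1 / 4 * ‖κ' * u ^ d‖ ∧ 1 ≤ ‖κ' * u ^ d‖ := by
        intro u hu1 hu2
        obtain ⟨h1, h2⟩ := hann u hu1 hu2
        refine ⟨h1.trans ?_, h2⟩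
        have := norm_nonneg (κ' * u ^ d)
        linarith
      have hlow : ∀ w ∈ ball (0 : ℂ) (ρ * Rq) \ closedBall (0 : ℂ) (ρ * Rq / 2),
          ENNReal.ofReal (‖θ‖ * ((n : ℝ) / 2)) ≤ ENNReal.ofReal
            (∑ k ∈ Finset.range n, ‖tau (B n c p q) G (p - i) (om n ^ k * w)‖ -
              ‖∑ k ∈ Finset.range n, om n ^ (2 * k) * tau (B n c p q) G (p - i) (om n ^ k * w)‖) := by
        intro w hw
        apply ENNReal.ofReal_le_ofReal
        refine COR3_point hPH3 n hn2 Rq ρ hR0 hρ11 κ' θ d hdiv (tau (B n c p q) G (p - i))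
          (fun u => Bh C n c p q i (gg C n c p q i G u) * deriv (gg C n c p q i G) u ^ 2)
          hsca hann' hρ0 w ?_ ?_
        · have h1 := hw.2
          rw [mem_closedBall_zero_iff, not_le] at h1
          linarith
        · exact mem_ball_zero_iff.1 hw.1
      have hchain : ENNReal.ofReal (‖θ‖ * ((n : ℝ) / 2)) * ENNReal.ofReal (2 * (ρ * Rq) ^ 2) ≤
          2 * n * ENNReal.ofReal (3 * ε) := by
        calc ENNReal.ofReal (‖θ‖ * ((n : ℝ) / 2)) * ENNReal.ofReal (2 * (ρ * Rq) ^ 2)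
            ≤ ENNReal.ofReal (‖θ‖ * ((n : ℝ) / 2)) *
              volume (ball (0 : ℂ) (ρ * Rq) \ closedBall (0 : ℂ) (ρ * Rq / 2)) :=
              mul_le_mul_right (COR3_area (ρ * Rq) (by positivity)) _
          _ = ∫⁻ w in ball (0 : ℂ) (ρ * Rq) \ closedBall (0 : ℂ) (ρ * Rq / 2),
              ENNReal.ofReal (‖θ‖ * ((n : ℝ) / 2)) := by
              rw [setLIntegral_const]
          _ ≤ ∫⁻ w in ball (0 : ℂ) (ρ * Rq) \ closedBall (0 : ℂ) (ρ * Rq / 2), ENNReal.ofReal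
            (∑ k ∈ Finset.range n, ‖tau (B n c p q) G (p - i) (om n ^ k * w)‖ -
              ‖∑ k ∈ Finset.range n, om n ^ (2 * k) * tau (B n c p q) G (p - i) (om n ^ k * w)‖) :=
              setLIntegral_mono' hmeas hlow
          _ ≤ _ := lintegral_mono_set hsub
          _ ≤ _ := hsym
      rw [← ENNReal.ofReal_mul (by positivity), show (2 : ENNReal) * (n : ENNReal) =
        ENNReal.ofReal (2 * (n : ℝ)) by
          rw [ENNReal.ofReal_mul (by norm_num), ENNReal.ofReal_natCast]; norm_num,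
        ← ENNReal.ofReal_mul (by positivity), ENNReal.ofReal_le_ofReal_iff (by positivity), hθ]
        at hchain
      have e1 : sg C n c p q / Rq ^ 2 * ((n : ℝ) / 2) * (2 * (ρ * Rq) ^ 2) =
          n * (sg C n c p q * ρ ^ 2) := by
        field_simp
      rw [e1] at hchain
      have e2 : 2 * (n : ℝ) * (3 * ε) = n * (6 * ε) := by ring
      rw [e2] at hchain
      have h5 := le_of_mul_le_mul_left hchain hn0
      linarith
  have h2 : sg C n c p q = X n c p q / (16 * C ^ 2) * (‖Z n c p‖ / ‖A n c p‖) := by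
    unfold sg
    rw [← hRq, hRX]
    field_simp
  have hq0 : 0 < ‖Z n c p‖ / ‖A n c p‖ := by positivity
  have h3 : X n c p q / (16 * C ^ 2) * ρ ^ 2 ≤ 48 * (CE * κ * (1 + Real.log (X n c p q))) := by
    rw [h2, hε] at h1
    have e1 : X n c p q / (16 * C ^ 2) * (‖Z n c p‖ / ‖A n c p‖) * ρ ^ 2 =
        (‖Z n c p‖ / ‖A n c p‖) * (X n c p q / (16 * C ^ 2) * ρ ^ 2) := by ring
    have e2 : 48 * (CE * κ * (‖Z n c p‖ / ‖A n c p‖) * (1 + Real.log (X n c p q))) =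
        (‖Z n c p‖ / ‖A n c p‖) * (48 * (CE * κ * (1 + Real.log (X n c p q)))) := by ring
    rw [e1, e2] at h1
    exact le_of_mul_le_mul_left h1 hq0
  have h4 : X n c p q / (16 * C ^ 2) * c₀ ^ 2 ≤ 48 * (CE * κ * (1 + Real.log (X n c p q))) := by
    refine le_trans ?_ h3
    apply mul_le_mul_of_nonneg_left _ (by positivity)
    exact pow_le_pow_left₀ hc₀.le hρc 2
  have h5 : X n c p q ≤ 768 * C ^ 2 * CE / c₀ ^ 2 * (κ * (1 + Real.log (X n c p q))) := by
    rw [div_mul_eq_mul_div, le_div_iff₀ (by positivity)]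
    rw [div_mul_eq_mul_div, div_le_iff₀ (by positivity)] at h4
    linarith
  calc X n c p q ≤ 768 * C ^ 2 * CE / c₀ ^ 2 * (κ * (1 + Real.log (X n c p q))) := h5
    _ ≤ ((16 * C + 2 * C * X₀ + 2) + 768 * C ^ 2 * CE / c₀ ^ 2) *
        (κ * (1 + Real.log (X n c p q))) := by
        apply mul_le_mul_of_nonneg_right _ (by linarith)
        have : 0 ≤ 16 * C + 2 * C * X₀ + 2 := by positivity
        linarith
    _ = _ := by ring

end GR

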